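import Pool.Agent.H71.VK.Stmt
import Pool.Agent.H71.HV.CLI
import Pool.Agent.H15.HV.BK

/-! The automorphism group of the quotient structure is left complete, hence not divisible by the
infinite symmetric group. -/

set_option autoImplicit false

open Set Filter Topology Pool.Agent.TK

namespace Pool.Agent.H71.VK

open Pool.Agent.H71 Pool.Agent.H71.HV

lemma cli_notdiv {G : Type} [Group G] [t : TopologicalSpace G] [IsTopologicalGroup G]
    [SecondCountableTopology G] [T2Space G] (K : Subgroup G) (hK : LeftComplete K) :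
    ¬ SDivides K := by
  obtain ⟨m, hm, hR⟩ := Pool.Agent.H15.HV.bk_holds G
  subst hm
  exact not_sdivides_of_leftComplete_aux hR K hK

attribute [local instance] permTop polishSpace_perm isTopologicalGroup_perm

theorem pf_CLI {C : Type} {c0 : C} (hRLB : RLB C) (hFLC : FLC C) (hCLB : CLB C c0) :
    CLI C c0 := by
  classical
  intro T M hM hBF hIns ν φ hfl
  refine cli_notdiv (AutY φ) ?_
  intro g hg hC
  -- pointwise limit
  have h1 : ∀ i, ∃ N, ∀ m ≥ N, ∀ n ≥ N, g m i = g n i := by
    intro i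
    obtain ⟨N, hN⟩ := hC {h | h i = i} ((isOpen_apply_eq i i).mem_nhds rfl)
    refine ⟨N, fun m hm n hn => ?_⟩
    have h2 : ((g m)⁻¹ * g n) i = i := hN m hm n hn
    have h3 : g m (((g m)⁻¹ * g n) i) = g m i := by rw [h2]
    rw [← Equiv.Perm.mul_apply, mul_inv_cancel_left] at h3
    exact h3.symm
  choose N hN using h1
  set f : ℕ → ℕ := fun i => g (N i) i with hf
  have hlim : ∀ i, ∀ n ≥ N i, g n i = f i := fun i n hn => hN i n hn (N i) le_rfl
  set R : ℕ → List ℕ → List ℕ → Prop := fun n l m => g n (ν l) = ν m with hR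
  set Q : List ℕ → List ℕ → Prop := fun l m => f (ν l) = ν m with hQ
  have hcorr : ∀ n, Corr T M M (R n) ∧ ∀ m, ∃ l, R n l m := fun n =>
    hFLC T M M ν ν φ φ (g n) hfl hfl (hg n)
  have hRQ : ∀ l, ∀ n ≥ N (ν l), ∀ m, R n l m ↔ Q l m := by
    intro l n hn m
    simp only [hR, hQ]
    rw [hlim _ n hn]
  have hCQ : Corr T M M Q := by
    refine ⟨?_, ?_, ?_, ?_, ?_, ?_, ?_⟩
    · intro l m h
      exact (hcorr (N (ν l))).1.col l m ((hRQ l _ le_rfl m).2 h)
    · intro l m h
      exact (hcorr (N (ν l))).1.len l m ((hRQ l _ le_rfl m).2 h)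
    · intro π l m h
      have h2 := (hcorr (max (N (ν l)) (N (ν (reindex π l))))).1.ri π l m
        ((hRQ l _ (le_max_left _ _) m).2 h)
      exact (hRQ _ _ (le_max_right _ _) _).1 h2
    · intro l m l' m' h hl hm
      have h2 := (hcorr (max (N (ν l)) (N (ν l')))).1.sat l m l' m'
        ((hRQ l _ (le_max_left _ _) m).2 h) hl hm
      exact (hRQ _ _ (le_max_right _ _) _).1 h2
    · intro l m m' h h'
      exact (hcorr (N (ν l))).1.uniq l m m' ((hRQ l _ le_rfl m).2 h) ((hRQ l _ le_rfl m').2 h')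
    · intro l l' m h h'
      exact (hcorr (max (N (ν l)) (N (ν l')))).1.inj l l' m
        ((hRQ l _ (le_max_left _ _) m).2 h) ((hRQ l' _ (le_max_right _ _) m).2 h')
    · intro l
      obtain ⟨m, hm⟩ := hfl.surj (f (ν l))
      exact ⟨m, hm.symm⟩
  have honto := hCLB T M hM hBF hIns R Q (fun n => (hcorr n).1) (fun n => (hcorr n).2) hCQ
    (fun l => ⟨N (ν l), fun n hn m => hRQ l n hn m⟩)
  have hfs : Function.Surjective f := by
    intro j
    obtain ⟨m, rfl⟩ := hfl.surj j
    obtain ⟨l, hl⟩ := honto m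
    exact ⟨ν l, hl⟩
  have hfi : Function.Injective f := by
    intro i j hij
    have h2 := hlim i _ (le_max_left (N i) (N j))
    have h3 := hlim j _ (le_max_right (N i) (N j))
    apply (g (max (N i) (N j))).injective
    rw [h2, h3, hij]
  set a : Equiv.Perm ℕ := Equiv.ofBijective f ⟨hfi, hfs⟩ with ha
  have haf : ∀ i, a i = f i := fun i => rfl
  refine ⟨a, tendsto_perm ?_ ?_⟩
  · intro i
    filter_upwards [eventually_ge_atTop (N i)] with n hn
    rw [hlim i n hn, haf]
  · intro i
    filter_upwards [eventually_ge_atTop (N (a.symm i))] with n hn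
    rw [Equiv.symm_apply_eq, hlim _ n hn, ← haf, Equiv.apply_symm_apply]

end Pool.Agent.H71.VK
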